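import Pool.Agent.Lib.TATE.Asm.Spec
import Pool.Agent.Lib.TATE.GA.Al3

/-!
# PROJECT TNF: interface (helper64)

The Tate conjecture for products of new parts at all points outside a thin set (note 4967). Packages:
`AB` (Abel), `HIT` (Hilbert irreducibility), `CV` (algebraic power series), `FR` (Frattini), `LG` (level
groups), `OR` (orbits), `HS` (Hodge), `AL` (algebraicity).
-/

set_option autoImplicit false

open Topology Metric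

noncomputable section

namespace TNF

open HC HC.CC SEJ TATE

/-! ## 1. Abel -/

section ab

variable {m r : ℕ}

/-- A lattice `L t ⊇ LZ t`, flat, stable under the automorphisms of `ℂ` which fix `exp (2 π i / m)`. -/
structure LPD (m : ℕ) {r : ℕ} (b : Fin (r + 1) → ℕ) where
  L : (Fin (r + 1) → ℂ) → Set (Ix m b → ℂ)
  zero : ∀ t, Function.Injective t → (0 : Ix m b → ℂ) ∈ L t
  sub : ∀ t, Function.Injective t → ∀ u ∈ L t, ∀ v ∈ L t, u - v ∈ L t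
  le : ∀ t, Function.Injective t → LZ m b t ⊆ L t
  fin : ∀ t, Function.Injective t → ∃ N : ℕ, N ≠ 0 ∧ ∀ v ∈ L t, N • v ∈ LZ m b t
  stb : ∀ t, Function.Injective t → ∀ v ∈ L t, Zd m b v ∈ L t
  flat : ∀ Φ : FamD m b, ∀ t, Function.Injective t → ∀ t' ∈ ball t (Φ.ρ t),
    Φ.τ t t' '' L t = L t'
  aut : ∀ σ : ℂ ≃+* ℂ, σ (ze m 1) = ze m 1 → ∀ t, Function.Injective t →
    ∀ (k : ℕ) (Q' Q : Fin k → ℂ × ℂ) (w w' : Fin k → (Ix m b → ℂ)),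
    (∀ a, Itg m b t (Q' a) (Q a) (w a)) →
    (∀ a, Itg m b (fun j => σ (t j)) (σ (Q' a).1, σ (Q' a).2) (σ (Q a).1, σ (Q a).2) (w' a)) →
    ∑ a, w a ∈ L t → ∑ a, w' a ∈ L (fun j => σ (t j))

/-- **AB**: ABEL'S THEOREM (helper45). -/
def StmtAB : Prop :=
  ∀ (m r : ℕ) (b : Fin (r + 1) → ℕ), Cvb m b → Nonempty (LPD m b)

/-- `σ` maps `v ∈ V / L t` to `v' ∈ V / L (σ t)`. -/
def Act {b : Fin (r + 1) → ℕ} (Λ : LPD m b) (σ : ℂ ≃+* ℂ) (t : Fin (r + 1) → ℂ)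
    (v v' : Ix m b → ℂ) : Prop :=
  ∃ (k : ℕ) (Q' Q : Fin k → ℂ × ℂ) (w w' : Fin k → (Ix m b → ℂ)),
    (∀ a, Itg m b t (Q' a) (Q a) (w a)) ∧
    (∀ a, Itg m b (fun j => σ (t j)) (σ (Q' a).1, σ (Q' a).2) (σ (Q a).1, σ (Q a).2) (w' a)) ∧
    ∑ a, w a - v ∈ Λ.L t ∧ ∑ a, w' a - v' ∈ Λ.L (fun j => σ (t j))

end ab

/-- A choice of the lattices. -/
abbrev LL : Type := ∀ (m r : ℕ) (b : Fin (r + 1) → ℕ), Cvb m b → LPD m b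

section dt

variable {p N : ℕ}

/-- The lattice of the product. -/
def LPs (Λ : LL) (D : Dt p N) (h : D.ok) (s : Fin p → ℂ) : Set D.V :=
  {v | ∀ n, v n ∈ (Λ _ _ _ (h.cv n)).L (D.t s n)}

/-- `σ` maps `v ∈ V / L (s)` to `v' ∈ V / L (σ s)`. -/
def ActD (Λ : LL) (D : Dt p N) (h : D.ok) (σ : ℂ ≃+* ℂ) (s : Fin p → ℂ) (v v' : D.V) : Prop :=
  ∀ n, Act (Λ _ _ _ (h.cv n)) σ (D.t s n) (v n) (v' n)

/-- The automorphisms of `ℂ` which fix `s` and the roots of unity `exp (2 π i / m n)`. -/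
def Gam (D : Dt p N) (s : Fin p → ℂ) : Set (ℂ ≃+* ℂ) :=
  {σ | (∀ i, σ (s i) = s i) ∧ ∀ n, σ (ze (D.m n) 1) = ze (D.m n) 1}

/-! ## 2. The Hilbert condition -/

/-- The field `ℚ(s)`. -/
abbrev Qs (s : Fin p → ℂ) : IntermediateField ℚ ℂ := IntermediateField.adjoin ℚ (Set.range s)

/-- The coefficients of `P` at the point `s`, in the field `ℚ(s)`. -/
def toQs (s : Fin p → ℂ) : MvPolynomial (Fin p) ℚ →+* Qs s :=
  (MvPolynomial.aeval fun i => (⟨s i, IntermediateField.subset_adjoin ℚ _ ⟨i, rfl⟩⟩ : Qs s)).toRingHom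

/-- `P(s, X)` is irreducible over `ℚ(s)`. -/
def IrrAt (P : Polynomial (MvPolynomial (Fin p) ℚ)) (s : Fin p → ℂ) : Prop :=
  Irreducible (P.map (toQs s))

/-- `P` is irreducible over the field of rational functions. -/
def IrrG (P : Polynomial (MvPolynomial (Fin p) ℚ)) : Prop :=
  Irreducible (P.map (algebraMap (MvPolynomial (Fin p) ℚ)
    (FractionRing (MvPolynomial (Fin p) ℚ))))

/-- The Hilbert set of finitely many polynomials. -/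
def Hil (F : List (Polynomial (MvPolynomial (Fin p) ℚ))) (Δ : MvPolynomial (Fin p) ℚ)
    (s : Fin p → ℂ) : Prop :=
  MvPolynomial.aeval s Δ ≠ 0 ∧ ∀ P ∈ F, IrrAt P s

/-- **HIT**: HILBERT'S IRREDUCIBILITY THEOREM (helper59), with a power saving. -/
def StmtHIT : Prop :=
  ∀ (p : ℕ) (F : List (Polynomial (MvPolynomial (Fin p) ℚ))) (Δ : MvPolynomial (Fin p) ℚ),
    Δ ≠ 0 → (∀ P ∈ F, IrrG P ∧ 0 < P.natDegree) → ∀ G : MvPolynomial (Fin p) ℚ, G ≠ 0 →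
    ∃ s : Fin p → ℤ, MvPolynomial.aeval (fun i => (s i : ℂ)) G ≠ 0 ∧ Hil F Δ fun i => (s i : ℂ)

/-! ## 3. The level groups -/

/-- **LG**: LOOPS ARE GALOIS at all points of a Hilbert set (helper64). -/
def StmtLG : Prop :=
  ∀ (Λ : LL) (Φ : FF) (p N : ℕ) (D : Dt p N) (h : D.ok) (ℓ : ℕ), ℓ.Prime →
    ∃ (P : Polynomial (MvPolynomial (Fin p) ℚ)) (Δ : MvPolynomial (Fin p) ℚ), IrrG P ∧
      0 < P.natDegree ∧ Δ ≠ 0 ∧ ∀ s : Fin p → ℂ, Function.Injective s → Hil [P] Δ s →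
      ∃ X : Set (Fin p → ℂ), IsMeagre X ∧ ∀ w ∉ X, ∀ M : Fml D.V (Bd s w), IsLn Φ D h s w M →
        ∀ δ, IsPth (Bd s w) δ 0 0 → ∀ φ, IsTr M δ φ → ∀ k : ℕ,
        ∃ σ ∈ Gam D s, (∀ ξ : ℂ, ξ ^ ℓ ^ k = 1 → σ ξ = ξ) ∧ ∀ v ∈ LPs Λ D h s,
          ActD Λ D h σ s (((ℓ : ℂ) ^ k)⁻¹ • v) (((ℓ : ℂ) ^ k)⁻¹ • φ 1 v)

/-! ## 4. Orbits -/

/-- `c` belongs to a finite flat family on the line `s + z w` for all `w ∉ X`. -/
def GCw (Φ : FF) (D : Dt p N) (h : D.ok) (s : Fin p → ℂ) (X : Set (Fin p → ℂ)) {d : ℕ}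
    (c : Cl D.V d) : Prop :=
  Rtc (D.L s) c ∧ ∀ w ∉ X, ∀ M : Fml D.V (Bd s w), IsLn Φ D h s w M → ∃ O, IsFF M O ∧ c ∈ O 0

/-- The loops are Galois at all levels. -/
def Lps (Λ : LL) (Φ : FF) (D : Dt p N) (h : D.ok) (ℓ : ℕ) (s : Fin p → ℂ)
    (X : Set (Fin p → ℂ)) : Prop :=
  ∀ w ∉ X, ∀ M : Fml D.V (Bd s w), IsLn Φ D h s w M →
    ∀ δ, IsPth (Bd s w) δ 0 0 → ∀ φ, IsTr M δ φ → ∀ k : ℕ,
    ∃ σ ∈ Gam D s, (∀ ξ : ℂ, ξ ^ ℓ ^ k = 1 → σ ξ = ξ) ∧ ∀ v ∈ LPs Λ D h s,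
      ActD Λ D h σ s (((ℓ : ℂ) ^ k)⁻¹ • v) (((ℓ : ℂ) ^ k)⁻¹ • φ 1 v)

/-- **OR**: the rational components of a Tate class belong to finite flat families (helper4). -/
def StmtOR : Prop :=
  ∀ (Λ : LL) (Φ : FF) (p N : ℕ) (s : Fin p → ℂ) (J : Fin N → AV) (γ : ∀ n, Cur (J n)),
    Function.Injective s → ∀ (P : Pk s γ) (T : AV) (g : ∀ n, T.V → (J n).V), IsPr g →
    ∀ G : T.V ≃ₗ[ℂ] P.D.V, (∀ v n, G v n = P.κ n (g n v)) → G '' {v | Rt T v} = P.D.L s →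
    ∀ (ℓ : ℕ) [Fact ℓ.Prime] (X : Set (Fin p → ℂ)), Lps Λ Φ P.D P.ok ℓ s X →
    ∀ (i : ℕ) (c : HL T ℓ (2 * i)), IsTate s γ g ℓ i c →
    ∃ (n : ℕ) (x : Fin n → ℚ_[ℓ]) (C : Fin n → Hlg T (2 * i)),
      (∀ k, Rtc {v | In T v} (C k)) ∧
      (∀ (a : Fin (2 * i) → F1 T) (f : Fin (2 * i) → H1 T ℓ),
        (∀ j (v : T.L), ∃ q : ℚ, ev (a j) v = q ∧ f j v = q) →
        ∃ q : Fin n → ℚ, (∀ k, itg (C k) a = q k) ∧ c f = ∑ k, x k * q k) ∧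
      ∀ k, GCw Φ P.D P.ok s X
        (psh ((G : T.V →ₗ[ℂ] P.D.V).restrictScalars ℝ) (C k))

/-! ## 5. Hodge classes, algebraic classes -/

/-- **AL**: HODGE AND ALGEBRAIC (helper1, helper30): classes in finite flat families are algebraic. -/
def StmtAL : Prop :=
  HC.CC.Main → ∀ (Φ : FF) (p N : ℕ) (s : Fin p → ℂ) (J : Fin N → AV) (γ : ∀ n, Cur (J n)),
    Function.Injective s → ∀ (P : Pk s γ) (T : AV) (g : ∀ n, T.V → (J n).V), IsPr g →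
    ∀ G : T.V ≃ₗ[ℂ] P.D.V, (∀ v n, G v n = P.κ n (g n v)) → G '' {v | Rt T v} = P.D.L s →
    ∀ d : ℕ, (∀ n, Bal (P.D.m n) (P.D.b n) ∨ d < P.D.r n) →
    ∀ X : Set (Fin p → ℂ), IsMeagre X → ∀ C : Hlg T d, Rtc {v | In T v} C →
    GCw Φ P.D P.ok s X (psh ((G : T.V →ₗ[ℂ] P.D.V).restrictScalars ℝ) C) → AlgC T d C

end dt

/-! ## 6. The theorem -/

/-- `IsBn` for coverings of degree `m ≤ M`, the exponents are reduced modulo `m`. -/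
def IsBM {p : ℕ} (s : Fin p → ℂ) (M d : ℕ) {T : AV} (γ : Cur T) : Prop :=
  ∃ (m : ℕ) (Z : T.V → T.V) (r : ℕ) (i : Fin (r + 1) → Fin p) (k : Option (Fin p))
    (b : Fin (r + 1) → ℕ), Function.Injective i ∧ (∀ l, k = some l → ∀ j, i j < l) ∧
    3 ≤ m ∧ m ≤ M ∧ 3 ≤ r ∧ (∀ j, b j < m) ∧ IsCv m (pt s i k) b ∧
    (Bal m b ∨ Ndf m b ∧ d < r) ∧ IsCy T m Z ∧
    2 * Module.finrank ℂ T.V = r * m.totient ∧ IsMp T m Z (pt s i k) b γ ∧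
    ∃ A : Set ℂ, A.Finite ∧ (∀ a ∈ A, AlgO s a) ∧ IsMod s γ A

/-- **THE THEOREM**: the Tate conjecture for products of new parts outside a thin set. -/
def Main : Prop :=
  ∀ p M : ℕ, ∃ (F : List (Polynomial (MvPolynomial (Fin p) ℚ))) (Δ : MvPolynomial (Fin p) ℚ),
    (∀ P ∈ F, IrrG P ∧ 0 < P.natDegree) ∧ Δ ≠ 0 ∧
    (∀ G : MvPolynomial (Fin p) ℚ, G ≠ 0 →
      ∃ s : Fin p → ℤ, MvPolynomial.aeval (fun i => (s i : ℂ)) G ≠ 0 ∧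
        Hil F Δ fun i => (s i : ℂ)) ∧
    ∀ s : Fin p → ℂ, Hil F Δ s →
    ∀ (T : AV) (N : ℕ) (J : Fin N → AV) (γ : ∀ n, Cur (J n)) (g : ∀ n, T.V → (J n).V) (i : ℕ),
      (∀ n, IsBM s M (2 * i) (γ n)) → IsPr g →
      ∀ (ℓ : ℕ) [Fact ℓ.Prime], ℓ ≤ M → ∀ c : HL T ℓ (2 * i), IsTate s γ g ℓ i c → IsAl c

end TNF
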