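import Pool.Agent.Lib.TNF.Iface

/-!
# PROJECT TNF: interface, second part (helper64): towers, conjugation of germs, the varieties `V / L(s)`
-/

set_option autoImplicit false

open Topology Metric

noncomputable section

namespace TNF

open HC HC.CC SEJ TATE

/-! ## 7. Towers -/

/-- A tower of finite groups of matrices modulo `ℓ ^ k`. -/
structure Twr (ι : Type) [Fintype ι] [DecidableEq ι] (ℓ : ℕ)
    (S : ∀ k : ℕ, Set (Matrix ι ι (ZMod (ℓ ^ k)))) : Prop where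
  one : ∀ k, (1 : Matrix ι ι (ZMod (ℓ ^ k))) ∈ S k
  mul : ∀ k, ∀ A ∈ S k, ∀ B ∈ S k, A * B ∈ S k
  inv : ∀ k, ∀ A ∈ S k, ∃ B ∈ S k, A * B = 1 ∧ B * A = 1
  red : ∀ k j (h : ℓ ^ k ∣ ℓ ^ j), (fun A : Matrix ι ι (ZMod (ℓ ^ j)) =>
    A.map (ZMod.castHom h (ZMod (ℓ ^ k)))) '' S j = S k

/-- **FR**: THE FRATTINI STEP (helper10). PROOF: note 4967, (2.2), (2.6). The kernels `N_k` of `S (k + 1) → S k`
satisfy `|N_k| ≤ |N_(k+1)|` for `k ≥ 2` (`x = 1 + ℓ^k X` lifts to `S (k + 2)`, `x ^ ℓ = 1 + ℓ^(k+1) X` modulo `ℓ^(k+2)`) and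
`|N_k| ≤ ℓ ^ (n ^ 2)`; `k₀ ≥ 2` with `|N_k|` constant for `k ≥ k₀`. -/
def StmtFR : Prop :=
  ∀ (ι : Type) [Fintype ι] [DecidableEq ι] (ℓ : ℕ), ℓ.Prime →
    ∀ S : (∀ k : ℕ, Set (Matrix ι ι (ZMod (ℓ ^ k)))), Twr ι ℓ S →
    ∃ k₀ : ℕ, ∀ S' : (∀ k : ℕ, Set (Matrix ι ι (ZMod (ℓ ^ k)))), Twr ι ℓ S' →
      (∀ k, (S' k).ncard ≤ (S k).ncard) → (S k₀).ncard ≤ (S' k₀).ncard →
      ∀ k, k₀ ≤ k → (S' k).ncard = (S k).ncard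

/-! ## 8. Conjugation of algebraic germs -/

/-- **CV**: CONJUGATION OF GERMS (helper7). `Θ` holomorphic near `0`, its values at `z` are algebraic over
`ℚ(u, z)` for `z` outside a meagre set; `σ` fixes `u`. There is `Θ'` (the Taylor coefficients of `Θ` conjugated by
`σ`), holomorphic near `0`, `Θ' 0 = σ (Θ 0)`, and for `z` outside a meagre set there is `σ'` which fixes `u`, `z` and
maps `Θ z` to `Θ' z`. -/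
def StmtCV : Prop :=
  ∀ (q K : ℕ) (u : Fin q → ℂ) (ε : ℝ), 0 < ε → ∀ Θ : ℂ → (Fin K → ℂ),
    DifferentiableOn ℂ Θ (ball 0 ε) → ∀ Y : Set ℂ, IsMeagre Y →
    (∀ z ∈ ball (0 : ℂ) ε, z ∉ Y → ∀ i, AlgO (Fin.snoc u z : Fin (q + 1) → ℂ) (Θ z i)) →
    ∀ σ : ℂ ≃+* ℂ, (∀ i, σ (u i) = u i) →
    ∃ ε' > 0, ε' ≤ ε ∧ ∃ (Θ' : ℂ → (Fin K → ℂ)) (Y' : Set ℂ), IsMeagre Y' ∧
      DifferentiableOn ℂ Θ' (ball 0 ε') ∧ (∀ i, Θ' 0 i = σ (Θ 0 i)) ∧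
      ∀ z ∈ ball (0 : ℂ) ε', z ∉ Y' → ∃ σ' : ℂ ≃+* ℂ, (∀ i, σ' (u i) = u i) ∧ σ' z = z ∧
        ∀ i, σ' (Θ z i) = Θ' z i

/-! ## 9. The abelian varieties `V / L(s)` -/

/-- **TP**: THE VARIETY `V / L t` (helper4): abelian variety, map of the curve, defined over `ℚ(s, exp (2 π i / m))` by
`LPD.aut`. PROOF. `T`, `Z`, `γ`, `κ` from `StmtFA4`, `StmtFA3`; `κ T.L ⊇ LZ` (`al` for closed paths), `N L t ⊆ LZ t`; the new lattice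
`κ⁻¹ (L t)` is a subgroup of `N⁻¹ T.L`, it spans; Riemann form `N ^ 2 E`. `Z` maps it to itself: `LPD.stb`.
`α' (x, y) = κ⁻¹ v`, `Itg P₀ (x, y) v` chosen; `Cur.map`: `TO.S_Br`. -/
def StmtTP : Prop :=
  ∀ (m r : ℕ) (b : Fin (r + 1) → ℕ) (t : Fin (r + 1) → ℂ) (Λ : LPD m b), Cvb m b → 1 ≤ r →
    Function.Injective t →
    ∃ (T : AV) (Z : T.V → T.V) (γ : Cur T) (κ : T.V ≃ₗ[ℂ] (Ix m b → ℂ)), IsCy T m Z ∧
      2 * Module.finrank ℂ T.V = r * m.totient ∧ IsMp T m Z t b γ ∧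
      (∀ v, κ (Z v) = Zd m b (κ v)) ∧
      (∀ x ∉ γ.S, ∀ y, γ.P (x, y) = 0 → κ (γ.ω x y) = om m b t (x, y)) ∧
      κ '' {v | Rt T v} = LQ m b t ∧ κ '' {v | In T v} = Λ.L t ∧
      (∀ P Q v, Itg m b t P Q v → ∃ l, In T l ∧ κ (γ.α Q.1 Q.2 - γ.α P.1 P.2) - v = κ l) ∧
      ∀ (p : ℕ) (s : Fin p → ℂ),
        (∀ j, t j ∈ IntermediateField.adjoin ℚ (Set.range s)) → IsMod s γ {ze m 1}

end TNF
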