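import Pool.Agent.Lib.TNF.AB.All
import Pool.Agent.Lib.TNF.HIT.All
import Pool.Agent.Lib.TNF.LG.All
import Pool.Agent.Lib.TNF.OR.All
import Pool.Agent.Lib.TNF.AL.All
import Pool.Agent.Lib.TNF.Asm.Pkm
import Pool.Agent.Lib.TNF.Asm.Plb
import Pool.Agent.Lib.TNF.Asm.Fin
import Pool.Agent.Lib.TATE.All

/-!
# PROJECT TNF: the main theorem (helper64)
-/

set_option autoImplicit false

noncomputable section

namespace TNF

open TATE

/-- **THE TATE CONJECTURE FOR FAMILIES OF NEW PARTS AT THE POINTS OF HILBERT SETS.** -/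
theorem main : Main3 :=
  main3_of (main_of AB.main HIT.tHIT2 (LG.cLG OR.aTP) OR.tOR AL.aAL TATE.tFA1 (tPkm TATE.tFA3)
    (tPlb TATE.tFL PA.cPA1 TATE.aAv) TATE.tPg HC.CC.main)

end TNF
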